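import Pool.Agent.V5helper87.CP.Defs
import Pool.Agent.H737R3.Points

/-!
Forms and closed points; orders of vanishing; the limits exist.
-/

set_option autoImplicit false

universe u

namespace Pool.Agent.V5helper87.CP

open MvPolynomial Pool.Agent.Chud Pool.Agent.H580C

section

variable {K : Type u} [Field K] {n : ℕ}

theorem aeval_smul_form {v : Fin (n + 1) → AlgebraicClosure K} {F : MvPolynomial (Fin (n + 1)) K}
    {d : ℕ} (hF : F.IsHomogeneous d) (t : AlgebraicClosure K) :
    aeval (fun i => t * v i) F = t ^ d * aeval v F := by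
  rw [aeval_def, aeval_def, eval₂_eq', eval₂_eq', Finset.mul_sum]
  apply Finset.sum_congr rfl
  intro c hc
  have h3 : c.degree = d := by
    have := hF (mem_support_iff.1 hc)
    rwa [Finsupp.degree_eq_weight_one]
  rw [← h3, Finsupp.degree_eq_sum, ← Finset.prod_pow_eq_pow_sum]
  rw [mul_left_comm, ← Finset.prod_mul_distrib]
  congr 1
  apply Finset.prod_congr rfl
  intro i _
  rw [mul_pow]

/-- membership of forms in the ideal of a closed point -/
theorem form_mem_ptIdeal {p : GPt K n} {F : MvPolynomial (Fin (n + 1)) K} {d : ℕ}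
    (hF : F.IsHomogeneous d) : F ∈ ptIdeal p ↔ aeval p.rep F = 0 := by
  rw [mem_ptIdeal]
  constructor
  · intro h
    exact h _ ((mem_submodule_rep p _).2 ⟨1, by simp⟩)
  · intro h x hx
    obtain ⟨t, rfl⟩ := (mem_submodule_rep p x).1 hx
    rw [aeval_smul_form hF, h, mul_zero]

theorem linI_smul {k : Type u} [Field k] (v : Fin (n + 1) → k) {t : k} (ht : t ≠ 0) :
    Pool.Agent.H737R3.linI (fun i => t * v i) ≤ Pool.Agent.H737R3.linI v := by
  unfold Pool.Agent.H737R3.linI
  rw [Ideal.span_le]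
  rintro l ⟨hl, hl0⟩
  apply Ideal.subset_span
  refine ⟨hl, ?_⟩
  have h1 : eval (fun i => t * v i) l = t * eval v l := by
    rw [eval_eq', eval_eq', Finset.mul_sum]
    apply Finset.sum_congr rfl
    intro c hc
    have h3 : c.degree = 1 := by
      have := hl (mem_support_iff.1 hc)
      rwa [Finsupp.degree_eq_weight_one]
    have h4 : ∏ i, (t * v i) ^ c i = t ^ c.degree * ∏ i, v i ^ c i := by
      rw [Finsupp.degree_eq_sum, ← Finset.prod_pow_eq_pow_sum, ← Finset.prod_mul_distrib]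
      apply Finset.prod_congr rfl
      intro i _
      rw [mul_pow]
    rw [h4, h3, pow_one]
    ring
  rw [h1] at hl0
  exact (mul_eq_zero.1 hl0).resolve_left ht

/-- orders of forms in symbolic powers -/
theorem order_of_symb {p : GPt K n} {F : MvPolynomial (Fin (n + 1)) K} {d m : ℕ}
    (hF : F.IsHomogeneous d) (hF0 : F ≠ 0) (h : F ∈ symb (ptIdeal p) m) :
    map (algebraMap K (AlgebraicClosure K)) F ∈ mI p.rep ^ m := by
  classical
  obtain ⟨s, hs, hsF⟩ := h
  -- a point of the line where `s` does not vanish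
  have h1 : lineHom p.rep s * Polynomial.X ≠ 0 := by
    apply mul_ne_zero _ Polynomial.X_ne_zero
    intro h
    exact hs (mem_ptIdeal_iff.2 h)
  obtain ⟨t, ht⟩ : ∃ t, (lineHom p.rep s * Polynomial.X).eval t ≠ 0 := by
    by_contra hcon
    push Not at hcon
    exact h1 (Polynomial.funext (by simpa using hcon))
  rw [Polynomial.eval_mul, Polynomial.eval_X, lineHom_eval] at ht
  have ht0 : t ≠ 0 := right_ne_zero_of_mul ht
  have hst := left_ne_zero_of_mul ht
  set w : Fin (n + 1) → AlgebraicClosure K := fun i => t * p.rep i with hw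
  have hev : ∀ G : MvPolynomial (Fin (n + 1)) K,
      eval w (map (algebraMap K (AlgebraicClosure K)) G) = aeval w G := by
    intro G
    rw [eval_map, aeval_def]
  have hle : Ideal.map (map (algebraMap K (AlgebraicClosure K))) (ptIdeal p) ≤ mI w := by
    rw [Ideal.map_le_iff_le_comap]
    intro G hG
    rw [Ideal.mem_comap, mI, RingHom.mem_ker, hev]
    exact mem_ptIdeal.1 hG w ((mem_submodule_rep p w).2 ⟨t, rfl⟩)
  have h2 : map (algebraMap K (AlgebraicClosure K)) (s * F) ∈ mI w ^ m := by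
    have := Ideal.mem_map_of_mem (map (algebraMap K (AlgebraicClosure K))) hsF
    rw [Ideal.map_pow] at this
    exact Ideal.pow_right_mono hle m this
  have hinj := map_injective (σ := Fin (n + 1)) (algebraMap K (AlgebraicClosure K))
    (algebraMap K (AlgebraicClosure K)).injective
  have hs0 : map (algebraMap K (AlgebraicClosure K)) s ≠ 0 := by
    intro h
    apply hst
    rw [← hev, h, map_zero]
  have hF0' : map (algebraMap K (AlgebraicClosure K)) F ≠ 0 := by
    intro h
    exact hF0 (hinj (by rw [h, map_zero]))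
  rw [map_mul, mem_mI_pow_iff w (mul_ne_zero hs0 hF0'), mu_mul w hs0 hF0'] at h2
  have h3 : mu w (map (algebraMap K (AlgebraicClosure K)) s) = 0 := by
    by_contra hne
    have := (mu_pos_iff w hs0).1 (Nat.pos_of_ne_zero hne)
    rw [hev] at this
    exact hst this
  rw [h3, zero_add] at h2
  have hw0 : w ≠ 0 := by
    intro h
    apply p.rep_nonzero
    funext i
    have := congrFun h i
    exact (mul_eq_zero.1 this).resolve_left ht0
  have h4 := Pool.Agent.H737R3.mem_linI_pow (hF.map _) hw0 ((mem_mI_pow_iff w hF0' m).2 h2)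
  exact Ideal.pow_right_mono ((linI_smul p.rep ht0).trans (Pool.Agent.H737R3.linI_le_mI _)) m h4

theorem pow_le_symb {R : Type*} [CommRing R] (P : Ideal R) [P.IsPrime] (m : ℕ) :
    P ^ m ≤ symb P m := by
  intro f hf
  exact ⟨1, P.one_notMem, by rwa [one_mul]⟩

theorem symb_one {R : Type*} [CommRing R] (P : Ideal R) [P.IsPrime] : symb P 1 = P := by
  ext f
  rw [mem_symb]
  constructor
  · rintro ⟨s, hs, h⟩
    rw [pow_one] at h
    exact (Ideal.IsPrime.mem_or_mem ‹_› h).resolve_left hs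
  · intro h
    exact ⟨1, P.one_notMem, by rwa [one_mul, pow_one]⟩

theorem mul_mem_symb {R : Type*} [CommRing R] (P : Ideal R) [P.IsPrime] {a b : ℕ} {f g : R}
    (hf : f ∈ symb P a) (hg : g ∈ symb P b) : f * g ∈ symb P (a + b) := by
  obtain ⟨s, hs, hsf⟩ := hf
  obtain ⟨t, ht, htg⟩ := hg
  refine ⟨s * t, fun h => (Ideal.IsPrime.mem_or_mem ‹_› h).elim hs ht, ?_⟩
  have h1 : s * t * (f * g) = (s * f) * (t * g) := by ring
  rw [h1, pow_add]
  exact Ideal.mul_mem_mul hsf htg

/-- there are nonzero forms in the ideal of a closed point -/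
theorem exists_form (hn : 1 ≤ n) (p : GPt K n) :
    ∃ F ∈ ptIdeal p, F ≠ 0 ∧ ∃ d, F.IsHomogeneous d := by
  classical
  obtain ⟨i, hi⟩ : ∃ i, p.rep i ≠ 0 := by
    by_contra h
    push Not at h
    exact p.rep_nonzero (funext h)
  obtain ⟨j, hj⟩ : ∃ j : Fin (n + 1), j ≠ i := by
    have : Nontrivial (Fin (n + 1)) := Fin.nontrivial_iff_two_le.2 (by omega)
    exact exists_ne i
  set z : AlgebraicClosure K := p.rep j / p.rep i with hz
  have hzi : IsIntegral K z := Algebra.IsIntegral.isIntegral z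
  set f := minpoly K z with hf
  set D := f.natDegree with hD
  -- the homogenised minimal polynomial
  set F : MvPolynomial (Fin (n + 1)) K :=
    ∑ k ∈ Finset.range (D + 1), C (f.coeff k) * (X j ^ k * X i ^ (D - k)) with hF
  have hFh : F.IsHomogeneous D := by
    apply IsHomogeneous.sum
    intro k hk
    have h1 : (X j ^ k * X i ^ (D - k) : MvPolynomial (Fin (n + 1)) K).IsHomogeneous
        (k + (D - k)) := by
      have h3 := ((isHomogeneous_X K j).pow k).mul ((isHomogeneous_X K i).pow (D - k))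
      simpa using h3
    have h2 : k + (D - k) = D := by
      rw [Finset.mem_range] at hk
      omega
    rw [h2] at h1
    have := (isHomogeneous_C (Fin (n + 1)) (f.coeff k)).mul h1
    rwa [zero_add] at this
  refine ⟨F, ?_, ?_, D, hFh⟩
  · rw [form_mem_ptIdeal hFh]
    have h1 : aeval p.rep F = p.rep i ^ D * Polynomial.aeval z f := by
      rw [hF, map_sum, Polynomial.aeval_eq_sum_range, Finset.mul_sum]
      apply Finset.sum_congr rfl
      intro k hk
      rw [Finset.mem_range] at hk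
      rw [map_mul, map_mul, map_pow, map_pow, aeval_X, aeval_X, aeval_C, Algebra.smul_def, hz,
        div_pow]
      have h2 : p.rep i ^ D = p.rep i ^ k * p.rep i ^ (D - k) := by
        rw [← pow_add]
        congr 1
        omega
      rw [h2]
      field_simp
    rw [h1, hf, minpoly.aeval, mul_zero]
  · intro h0
    -- put `X_i = 1` and look at the coefficient of `X_j ^ D`
    have h1 : aeval (fun l => if l = j then (Polynomial.X : Polynomial K) else 1) F = f := by
      rw [hF, map_sum]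
      conv_rhs => rw [Polynomial.as_sum_range_C_mul_X_pow f]
      apply Finset.sum_congr rfl
      intro k _
      rw [map_mul, map_mul, map_pow, map_pow, aeval_X, aeval_X, aeval_C, if_pos rfl,
        if_neg (Ne.symm hj), one_pow, mul_one]
      rfl
    rw [h0, map_zero] at h1
    exact minpoly.ne_zero hzi h1.symm

theorem mem_symPow {Z : Finset (GPt K n)} {m : ℕ} {F : MvPolynomial (Fin (n + 1)) K} :
    F ∈ symPow Z m ↔ ∀ p ∈ Z, F ∈ symb (ptIdeal p) m := by
  unfold symPow
  simp only [Submodule.mem_iInf]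

theorem mem_intPow {Z : Finset (GPt K n)} {m : ℕ} {F : MvPolynomial (Fin (n + 1)) K} :
    F ∈ intPow Z m ↔ ∀ p ∈ Z, F ∈ ptIdeal p ^ m := by
  unfold intPow
  simp only [Submodule.mem_iInf]

theorem mem_idealOf {Z : Finset (GPt K n)} {F : MvPolynomial (Fin (n + 1)) K} :
    F ∈ idealOf Z ↔ ∀ p ∈ Z, F ∈ ptIdeal p := by
  unfold idealOf
  simp only [Submodule.mem_iInf]

theorem intPow_le_symPow (Z : Finset (GPt K n)) (m : ℕ) : intPow Z m ≤ symPow Z m := by
  intro F hF
  rw [mem_intPow] at hF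
  rw [mem_symPow]
  exact fun p hp => pow_le_symb _ m (hF p hp)

theorem symPow_one (Z : Finset (GPt K n)) : symPow Z 1 = idealOf Z := by
  ext F
  rw [mem_symPow, mem_idealOf]
  simp only [symb_one]

theorem exists_form_intPow (hn : 1 ≤ n) (Z : Finset (GPt K n)) (m : ℕ) :
    ∃ F ∈ intPow Z m, F ≠ 0 ∧ ∃ d, F.IsHomogeneous d := by
  classical
  choose l hl hl0 d hd using fun p : GPt K n => exists_form hn p
  refine ⟨∏ p ∈ Z, l p ^ m, ?_, Finset.prod_ne_zero_iff.2 fun p _ => pow_ne_zero _ (hl0 p),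
    ∑ p ∈ Z, d p * m, IsHomogeneous.prod _ _ _ fun p _ => (hd p).pow m⟩
  rw [mem_intPow]
  intro p hp
  rw [← Finset.mul_prod_erase _ _ hp]
  exact Ideal.mul_mem_right _ _ (Ideal.pow_mem_pow (hl p) _)

theorem alpha_spec {J : Ideal (MvPolynomial (Fin (n + 1)) K)}
    (h : ∃ F ∈ J, F ≠ 0 ∧ ∃ d, F.IsHomogeneous d) :
    ∃ F ∈ J, F ≠ 0 ∧ F.IsHomogeneous (alpha J) := by
  obtain ⟨F, hF, hF0, d, hd⟩ := h
  exact Nat.sInf_mem (s := {d | ∃ F ∈ J, F ≠ 0 ∧ F.IsHomogeneous d}) ⟨d, F, hF, hF0, hd⟩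

theorem alpha_le {J : Ideal (MvPolynomial (Fin (n + 1)) K)} {F : MvPolynomial (Fin (n + 1)) K}
    {d : ℕ} (hF : F ∈ J) (hF0 : F ≠ 0) (hd : F.IsHomogeneous d) : alpha J ≤ d :=
  Nat.sInf_le ⟨F, hF, hF0, hd⟩

/-- the limits exist -/
theorem exists_limit (J : ℕ → Ideal (MvPolynomial (Fin (n + 1)) K))
    (hne : ∀ r, ∃ F ∈ J r, F ≠ 0 ∧ ∃ d, F.IsHomogeneous d)
    (hmul : ∀ a b F G, F ∈ J a → G ∈ J b → F * G ∈ J (a + b)) :
    ∃ c : ℝ, IsWaldschmidt J c ∧ ∀ r : ℕ, 1 ≤ r → c ≤ (alpha (J r) : ℝ) / r := by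
  have hsub : Subadditive (fun r : ℕ => (alpha (J r) : ℝ)) := by
    intro a b
    beta_reduce
    obtain ⟨F, hF, hF0, hFh⟩ := alpha_spec (hne a)
    obtain ⟨G, hG, hG0, hGh⟩ := alpha_spec (hne b)
    exact_mod_cast alpha_le (hmul a b F G hF hG) (mul_ne_zero hF0 hG0) (hFh.mul hGh)
  have hbdd : BddBelow (Set.range fun r : ℕ => (alpha (J r) : ℝ) / r) := by
    refine ⟨0, ?_⟩
    rintro _ ⟨r, rfl⟩
    positivity
  exact ⟨_, hsub.tendsto_lim hbdd, fun r hr => hsub.lim_le_div hbdd (by omega)⟩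

theorem exists_limit_sym (hn : 1 ≤ n) (Z : Finset (GPt K n)) :
    ∃ c : ℝ, IsWaldschmidt (symPow Z) c ∧ ∀ r : ℕ, 1 ≤ r → c ≤ (alpha (symPow Z r) : ℝ) / r := by
  apply exists_limit
  · intro r
    obtain ⟨F, hF, h⟩ := exists_form_intPow hn Z r
    exact ⟨F, intPow_le_symPow Z r hF, h⟩
  · intro a b F G hF hG
    rw [mem_symPow] at hF hG ⊢
    exact fun p hp => mul_mem_symb _ (hF p hp) (hG p hp)

theorem exists_limit_int (hn : 1 ≤ n) (Z : Finset (GPt K n)) :
    ∃ c : ℝ, IsWaldschmidt (intPow Z) c ∧ ∀ r : ℕ, 1 ≤ r → c ≤ (alpha (intPow Z r) : ℝ) / r := by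
  apply exists_limit
  · exact exists_form_intPow hn Z
  · intro a b F G hF hG
    rw [mem_intPow] at hF hG ⊢
    intro p hp
    rw [pow_add]
    exact Ideal.mul_mem_mul (hF p hp) (hG p hp)

end

end Pool.Agent.V5helper87.CP
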