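import Pool.Agent.V5helper87.CP.Sep

/-!
A closed point with inseparable residue field for which Chudnovsky's inequality fails.
-/

set_option autoImplicit false

namespace Pool.Agent.V5helper87.CP

open MvPolynomial

section

variable (p : ℕ) [hp : Fact p.Prime]

/-- the field of rational functions in two variables over the prime field -/
abbrev K0 := FractionRing (MvPolynomial (Fin 2) (ZMod p))

/-- the exponent of the first variable -/
def ea (i : Fin (2 * p - 1 + 1)) : ℕ := if (i : ℕ) < p then 0 else 1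

/-- the exponent of the second variable -/
def eb (i : Fin (2 * p - 1 + 1)) : ℕ := if (i : ℕ) < p then i else i - p

theorem ea_lt (i : Fin (2 * p - 1 + 1)) : ea p i < p := by
  have := hp.out.two_le
  unfold ea
  split_ifs <;> omega

theorem eb_lt (i : Fin (2 * p - 1 + 1)) : eb p i < p := by
  have := hp.out.two_le
  have := i.2
  unfold eb
  split_ifs <;> omega

theorem eab_inj {i j : Fin (2 * p - 1 + 1)} (h1 : ea p i = ea p j) (h2 : eb p i = eb p j) :
    i = j := by
  have := hp.out.two_le
  have := i.2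
  have := j.2
  unfold ea at h1
  unfold eb at h2
  apply Fin.ext
  split_ifs at h1 h2 <;> omega

/-- the exponent vector -/
noncomputable def ev (i : Fin (2 * p - 1 + 1)) : Fin 2 →₀ ℕ :=
  Finsupp.single 0 (ea p i) + Finsupp.single 1 (eb p i)

omit hp in
theorem ev_zero (i : Fin (2 * p - 1 + 1)) : ev p i 0 = ea p i := by
  simp [ev]

omit hp in
theorem ev_one (i : Fin (2 * p - 1 + 1)) : ev p i 1 = eb p i := by
  simp [ev]

omit hp in
theorem dvd_aux {a b m : ℕ} (ha : a < p) (hb : b < p) (hab : a ≠ b) (hle : b ≤ p * m + a) :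
    ¬ p ∣ p * m + a - b := by
  intro h
  have h1 : (p * m + a - b) + b = p * m + a := by omega
  obtain ⟨k, hk⟩ := h
  rw [hk] at h1
  have h2 : (p * k + b) % p = (p * m + a) % p := by rw [h1]
  rw [Nat.mul_add_mod, Nat.mul_add_mod, Nat.mod_eq_of_lt ha, Nat.mod_eq_of_lt hb] at h2
  exact hab h2.symm

/-- independence over `p`-th powers, polynomials -/
theorem indep_poly (f : Fin (2 * p - 1 + 1) → MvPolynomial (Fin 2) (ZMod p))
    (h : ∑ i, f i ^ p * (X 0 ^ ea p i * X 1 ^ eb p i) = 0) : ∀ i, f i = 0 := by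
  intro i
  ext m
  rw [coeff_zero]
  have h1 := congrArg (coeff (p • m + ev p i)) h
  rw [coeff_zero, coeff_sum] at h1
  have hmon : ∀ j, (X 0 ^ ea p j * X 1 ^ eb p j : MvPolynomial (Fin 2) (ZMod p)) =
      monomial (ev p j) 1 := by
    intro j
    rw [X_pow_eq_monomial, X_pow_eq_monomial, monomial_mul, one_mul]
    rfl
  rw [Finset.sum_eq_single i] at h1
  · rw [hmon, ← expand_zmod, coeff_mul_monomial', if_pos (by exact le_add_self), mul_one,
      add_tsub_cancel_right, coeff_expand_smul _ hp.out.ne_zero] at h1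
    exact h1
  · intro j _ hj
    rw [hmon, ← expand_zmod, coeff_mul_monomial']
    split_ifs with hle
    · rw [mul_one]
      by_cases h0 : ea p i = ea p j
      · have h2 : eb p i ≠ eb p j := fun h2 => hj (eab_inj p h0 h2).symm
        apply coeff_expand_of_not_dvd (i := 1)
        have h3 := hle 1
        rw [Finsupp.add_apply, Finsupp.smul_apply, ev_one, ev_one, smul_eq_mul] at h3
        rw [Finsupp.tsub_apply, Finsupp.add_apply, Finsupp.smul_apply, ev_one, ev_one, smul_eq_mul]
        exact dvd_aux p (eb_lt p i) (eb_lt p j) h2 h3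
      · apply coeff_expand_of_not_dvd (i := 0)
        have h3 := hle 0
        rw [Finsupp.add_apply, Finsupp.smul_apply, ev_zero, ev_zero, smul_eq_mul] at h3
        rw [Finsupp.tsub_apply, Finsupp.add_apply, Finsupp.smul_apply, ev_zero, ev_zero,
          smul_eq_mul]
        exact dvd_aux p (ea_lt p i) (ea_lt p j) h0 h3
    · rfl
  · intro hi
    exact absurd (Finset.mem_univ i) hi

/-- the first variable -/
noncomputable def sK : K0 p := algebraMap (MvPolynomial (Fin 2) (ZMod p)) (K0 p) (X 0)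

/-- the second variable -/
noncomputable def tK : K0 p := algebraMap (MvPolynomial (Fin 2) (ZMod p)) (K0 p) (X 1)

/-- independence over `p`-th powers -/
theorem indep_K (c : Fin (2 * p - 1 + 1) → K0 p)
    (h : ∑ i, c i ^ p * (sK p ^ ea p i * tK p ^ eb p i) = 0) : ∀ i, c i = 0 := by
  obtain ⟨b, hb⟩ := IsLocalization.exist_integer_multiples_of_finite
    (nonZeroDivisors (MvPolynomial (Fin 2) (ZMod p))) c
  choose f hf using hb
  have h1 : ∑ i, f i ^ p * (X 0 ^ ea p i * X 1 ^ eb p i) = 0 := by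
    apply IsFractionRing.injective (MvPolynomial (Fin 2) (ZMod p)) (K0 p)
    rw [map_zero, map_sum]
    have h2 : ∀ i, algebraMap (MvPolynomial (Fin 2) (ZMod p)) (K0 p)
        (f i ^ p * (X 0 ^ ea p i * X 1 ^ eb p i)) =
        (algebraMap (MvPolynomial (Fin 2) (ZMod p)) (K0 p) b) ^ p *
          (c i ^ p * (sK p ^ ea p i * tK p ^ eb p i)) := by
      intro i
      rw [map_mul, map_pow, map_mul, map_pow, map_pow, hf i, Algebra.smul_def, mul_pow]
      unfold sK tK
      ring
    rw [Finset.sum_congr rfl fun i _ => h2 i, ← Finset.mul_sum, h, mul_zero]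
  intro i
  have h3 := indep_poly p f h1 i
  have h4 := hf i
  rw [h3, map_zero, Algebra.smul_def] at h4
  have h5 : algebraMap (MvPolynomial (Fin 2) (ZMod p)) (K0 p) b ≠ 0 := by
    intro h6
    have h7 := (IsFractionRing.injective (MvPolynomial (Fin 2) (ZMod p)) (K0 p))
      (h6.trans (map_zero _).symm)
    exact nonZeroDivisors.ne_zero b.2 h7
  exact (mul_eq_zero.1 h4.symm).resolve_left h5

/-- an algebraic closure -/
abbrev O0 := AlgebraicClosure (K0 p)

theorem exists_root (x : K0 p) : ∃ y : O0 p, y ^ p = algebraMap (K0 p) (O0 p) x :=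
  IsAlgClosed.exists_pow_nat_eq _ hp.out.pos

/-- root of the first variable -/
noncomputable def sg : O0 p := (exists_root p (sK p)).choose

/-- root of the second variable -/
noncomputable def tu : O0 p := (exists_root p (tK p)).choose

theorem sg_pow : sg p ^ p = algebraMap (K0 p) (O0 p) (sK p) := (exists_root p (sK p)).choose_spec

theorem tu_pow : tu p ^ p = algebraMap (K0 p) (O0 p) (tK p) := (exists_root p (tK p)).choose_spec

/-- coordinates of the point -/
noncomputable def vv (i : Fin (2 * p - 1 + 1)) : O0 p := sg p ^ ea p i * tu p ^ eb p i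

instance : CharP (O0 p) p := charP_of_injective_algebraMap (algebraMap (K0 p) (O0 p)).injective p

/-- the coordinates are linearly independent over `K` -/
theorem indep_v (c : Fin (2 * p - 1 + 1) → K0 p)
    (h : ∑ i, algebraMap (K0 p) (O0 p) (c i) * vv p i = 0) : ∀ i, c i = 0 := by
  apply indep_K p c
  apply (algebraMap (K0 p) (O0 p)).injective
  rw [map_zero, map_sum]
  have h1 : (∑ i, algebraMap (K0 p) (O0 p) (c i) * vv p i) ^ p = 0 ^ p := by rw [h]
  rw [zero_pow hp.out.ne_zero, sum_pow_char] at h1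
  rw [← h1]
  apply Finset.sum_congr rfl
  intro i _
  rw [map_mul, map_pow, map_mul, map_pow, map_pow, ← sg_pow, ← tu_pow, mul_pow, vv, mul_pow]
  ring

/-- index of the coordinate `τ ^ j` -/
def i0 (j : Fin p) : Fin (2 * p - 1 + 1) := ⟨j, by have := j.2; omega⟩

/-- index of the coordinate `σ τ ^ j` -/
def i1 (j : Fin p) : Fin (2 * p - 1 + 1) := ⟨p + j, by have := j.2; omega⟩

theorem vv_i0 (j : Fin p) : vv p (i0 p j) = tu p ^ (j : ℕ) := by
  have := j.2
  simp [vv, i0, ea, eb]

theorem vv_i1 (j : Fin p) : vv p (i1 p j) = sg p * tu p ^ (j : ℕ) := by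
  have := j.2
  simp [vv, i1, ea, eb]

/-- the index zero -/
def z0 : Fin p := ⟨0, hp.out.pos⟩

/-- the index one -/
def z1 : Fin p := ⟨1, hp.out.one_lt⟩

theorem vv_ne : vv p ≠ 0 := by
  intro h
  have h1 := congrFun h (i0 p (z0 p))
  rw [vv_i0] at h1
  simp [z0] at h1

/-- the closed point -/
noncomputable def PP0 : GPt (K0 p) (2 * p - 1) := Projectivization.mk (O0 p) (vv p) (vv_ne p)

theorem mem_PP0 {F : MvPolynomial (Fin (2 * p - 1 + 1)) (K0 p)} :
    F ∈ ptIdeal (PP0 p) ↔ lineHom (vv p) F = 0 := mem_ptIdeal_mk (vv_ne p)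

/-- the variable with value `1` -/
noncomputable abbrev xA : MvPolynomial (Fin (2 * p - 1 + 1)) (K0 p) := X (i0 p (z0 p))

/-- the variable with value `σ` -/
noncomputable abbrev xB : MvPolynomial (Fin (2 * p - 1 + 1)) (K0 p) := X (i1 p (z0 p))

/-- the variable with value `τ` -/
noncomputable abbrev xC : MvPolynomial (Fin (2 * p - 1 + 1)) (K0 p) := X (i0 p (z1 p))

theorem lh_C (c : K0 p) : lineHom (vv p) (C c) =
    Polynomial.C (algebraMap (K0 p) (O0 p) c) := by
  simp [lineHom]

theorem lh_X (i : Fin (2 * p - 1 + 1)) : lineHom (vv p) (X i) =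
    Polynomial.C (vv p i) * Polynomial.X := by
  simp only [lineHom, coe_eval₂Hom, eval₂_X]

theorem lh_A : lineHom (vv p) (xA p) = Polynomial.X := by
  rw [lh_X, vv_i0]
  simp [z0]

theorem lh_B : lineHom (vv p) (xB p) = Polynomial.C (sg p) * Polynomial.X := by
  rw [lh_X, vv_i1]
  simp [z0]

theorem lh_C' : lineHom (vv p) (xC p) = Polynomial.C (tu p) * Polynomial.X := by
  rw [lh_X, vv_i0]
  simp [z1]

theorem xA_notMem : xA p ∉ ptIdeal (PP0 p) := by
  rw [mem_PP0, lh_A]
  exact Polynomial.X_ne_zero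

theorem g0_mem (j : Fin p) : xA p ^ (j : ℕ) * X (i0 p j) - xA p * xC p ^ (j : ℕ) ∈
    ptIdeal (PP0 p) := by
  rw [mem_PP0, map_sub, map_mul, map_mul, map_pow, map_pow, lh_A, lh_C', lh_X, vv_i0]
  rw [mul_pow, Polynomial.C_pow]
  ring

theorem g1_mem (j : Fin p) : xA p ^ (j : ℕ) * X (i1 p j) - xB p * xC p ^ (j : ℕ) ∈
    ptIdeal (PP0 p) := by
  rw [mem_PP0, map_sub, map_mul, map_mul, map_pow, map_pow, lh_A, lh_B, lh_C', lh_X, vv_i1]
  rw [mul_pow, Polynomial.C_mul, Polynomial.C_pow]
  ring

theorem gB_mem : xB p ^ p - C (sK p) * xA p ^ p ∈ ptIdeal (PP0 p) := by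
  rw [mem_PP0, map_sub, map_mul, map_pow, map_pow, lh_A, lh_B, lh_C, ← sg_pow, mul_pow,
    Polynomial.C_pow]
  ring

theorem gC_mem : xC p ^ p - C (tK p) * xA p ^ p ∈ ptIdeal (PP0 p) := by
  rw [mem_PP0, map_sub, map_mul, map_pow, map_pow, lh_A, lh_C', lh_C, ← tu_pow, mul_pow,
    Polynomial.C_pow]
  ring

/-- the form of degree `p` in the `p`-th symbolic power -/
noncomputable def FF : MvPolynomial (Fin (2 * p - 1 + 1)) (K0 p) :=
  ∑ j : Fin p, C (tK p) ^ (p - 1 - (j : ℕ)) * (X (i1 p j) ^ p - C (sK p) * X (i0 p j) ^ p)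

theorem FF_homog : (FF p).IsHomogeneous p := by
  apply IsHomogeneous.sum
  intro j _
  have h1 : (X (i1 p j) ^ p - C (sK p) * X (i0 p j) ^ p :
      MvPolynomial (Fin (2 * p - 1 + 1)) (K0 p)).IsHomogeneous p := by
    apply IsHomogeneous.sub
    · have := (isHomogeneous_X (K0 p) (i1 p j)).pow p
      rwa [one_mul] at this
    · have := (isHomogeneous_C (Fin (2 * p - 1 + 1)) (sK p)).mul
        ((isHomogeneous_X (K0 p) (i0 p j)).pow p)
      rwa [one_mul, zero_add] at this
  have h2 := (isHomogeneous_C (Fin (2 * p - 1 + 1)) (tK p ^ (p - 1 - (j : ℕ)))).mul h1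
  rwa [zero_add, C_pow] at h2

theorem FF_ne : FF p ≠ 0 := by
  intro h
  -- put the variable of the index `i1 (p - 1)` to one and the others to zero
  set jl : Fin p := ⟨p - 1, by have := hp.out.pos; omega⟩ with hjl
  have h1 := congrArg (eval (Pi.single (i1 p jl) (1 : K0 p))) h
  rw [map_zero, FF, map_sum, Finset.sum_eq_single jl] at h1
  · rw [map_mul, map_sub, map_pow, map_pow, map_mul, map_pow, eval_X, eval_X, Pi.single_eq_same,
      Pi.single_eq_of_ne, zero_pow hp.out.ne_zero] at h1
    · simp [hjl] at h1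
    · intro h2
      have := congrArg Fin.val h2
      simp only [i0, i1] at this
      have := hp.out.pos
      omega
  · intro j _ hj
    rw [map_mul, map_sub, map_pow, map_pow, map_mul, map_pow, eval_X, eval_X,
      Pi.single_eq_of_ne, Pi.single_eq_of_ne, zero_pow hp.out.ne_zero]
    · simp
    · intro h2
      have := congrArg Fin.val h2
      simp only [i0, i1] at this
      have := j.2
      have := jl.2
      omega
    · intro h2
      apply hj
      have := congrArg Fin.val h2
      simp only [i1] at this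
      exact Fin.ext (by omega)
  · intro hi
    exact absurd (Finset.mem_univ _) hi

theorem sum_geom (x y : MvPolynomial (Fin (2 * p - 1 + 1)) (K0 p)) (hxy : x - y ≠ 0) :
    ∑ j : Fin p, x ^ (j : ℕ) * y ^ (p - 1 - (j : ℕ)) = (x - y) ^ (p - 1) := by
  apply mul_right_cancel₀ hxy
  rw [← pow_succ, Nat.sub_add_cancel hp.out.one_le, sub_pow_char,
    Fin.sum_univ_eq_sum_range (fun j => x ^ j * y ^ (p - 1 - j)) p]
  exact (Commute.all x y).geom_sum₂_mul p

theorem key_identity : xA p ^ (p * (p - 1)) * FF p =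
    (∑ j : Fin p, C (tK p) ^ (p - 1 - (j : ℕ)) * xA p ^ (p * (p - 1 - (j : ℕ))) *
      ((xA p ^ (j : ℕ) * X (i1 p j) - xB p * xC p ^ (j : ℕ)) ^ p -
        C (sK p) * (xA p ^ (j : ℕ) * X (i0 p j) - xA p * xC p ^ (j : ℕ)) ^ p)) +
    (∑ j : Fin p, (xC p ^ p) ^ (j : ℕ) * (C (tK p) * xA p ^ p) ^ (p - 1 - (j : ℕ))) *
      (xB p ^ p - C (sK p) * xA p ^ p) := by
  rw [FF, Finset.mul_sum, Finset.sum_mul, ← Finset.sum_add_distrib]
  apply Finset.sum_congr rfl
  intro j _
  rw [sub_pow_char, sub_pow_char]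
  have h1 : xA p ^ (p * (p - 1)) = xA p ^ (p * (p - 1 - (j : ℕ))) * xA p ^ ((j : ℕ) * p) := by
    rw [← pow_add]
    congr 1
    have : p - 1 = (p - 1 - (j : ℕ)) + (j : ℕ) := by
      have := j.2
      omega
    conv_lhs => rw [this]
    ring
  rw [h1, mul_pow, mul_pow, mul_pow, mul_pow, mul_pow, ← pow_mul (xA p) (j : ℕ) p,
    ← pow_mul (xA p) p, ← pow_mul (xC p) (j : ℕ) p, ← pow_mul (xC p) p (j : ℕ),
    mul_comm p (j : ℕ)]
  ring

theorem FF_mem : FF p ∈ symb (ptIdeal (PP0 p)) p := by
  refine ⟨xA p ^ (p * (p - 1)), ?_, ?_⟩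
  · intro h
    exact xA_notMem p (Ideal.IsPrime.mem_of_pow_mem inferInstance _ h)
  · rw [key_identity]
    apply add_mem
    · apply Ideal.sum_mem
      intro j _
      apply Ideal.mul_mem_left
      apply sub_mem
      · exact Ideal.pow_mem_pow (g1_mem p j) p
      · exact Ideal.mul_mem_left _ _ (Ideal.pow_mem_pow (g0_mem p j) p)
    · have hne : xC p ^ p - C (tK p) * xA p ^ p ≠ 0 := by
        intro h
        have h1 := congrArg (eval (Pi.single (i0 p (z1 p)) (1 : K0 p))) h
        rw [map_zero, map_sub, map_pow, map_mul, map_pow, eval_X, eval_X, Pi.single_eq_same,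
          Pi.single_eq_of_ne, zero_pow hp.out.ne_zero] at h1
        · simp at h1
        · intro h2
          have := congrArg Fin.val h2
          simp [i0, z0, z1] at this
      rw [sum_geom p _ _ hne]
      have h2 : (ptIdeal (PP0 p)) ^ p = (ptIdeal (PP0 p)) ^ (p - 1) * ptIdeal (PP0 p) := by
        rw [← pow_succ, Nat.sub_add_cancel hp.out.one_le]
      rw [h2]
      exact Ideal.mul_mem_mul (Ideal.pow_mem_pow (gC_mem p) _) (gB_mem p)

omit hp in
theorem eval_lin {K : Type*} [Field K] {n : ℕ} {F : MvPolynomial (Fin n) K} (hF : F.IsHomogeneous 1) :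
    F = ∑ i, C (coeff (Finsupp.single i 1) F) * X i := by
  classical
  ext m
  rw [coeff_sum]
  by_cases hm : m.degree = 1
  · obtain ⟨i, rfl⟩ : ∃ i, m = Finsupp.single i 1 := by
      obtain ⟨i, hi⟩ := (Finsupp.sum_eq_one_iff m).1 (by
        rw [← hm]
        rfl)
      exact ⟨i, hi⟩
    rw [Finset.sum_eq_single i]
    · rw [coeff_C_mul, coeff_X_same, mul_one]
    · intro j _ hj
      rw [coeff_C_mul, coeff_X, if_neg, mul_zero]
      intro h
      exact hj (Finsupp.single_left_injective one_ne_zero h)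
    · intro hi
      exact absurd (Finset.mem_univ _) hi
  · have h1 : coeff m F = 0 := by
      by_contra hne
      have := hF hne
      rw [Finsupp.degree_eq_weight_one] at hm
      exact hm this
    rw [h1]
    symm
    apply Finset.sum_eq_zero
    intro i _
    rw [coeff_C_mul, coeff_X, if_neg, mul_zero]
    rintro rfl
    exact hm (Finsupp.degree_single i 1)

/-- no linear forms and no constants in the ideal -/
theorem two_le {F : MvPolynomial (Fin (2 * p - 1 + 1)) (K0 p)} {e : ℕ} (hF0 : F ≠ 0)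
    (hF : F.IsHomogeneous e) (h : F ∈ ptIdeal (PP0 p)) : 2 ≤ e := by
  by_contra hlt
  rw [mem_PP0] at h
  have he : e = 0 ∨ e = 1 := by omega
  rcases he with rfl | rfl
  · have hF := totalDegree_eq_zero_iff_eq_C.1 (hF.totalDegree hF0)
    rw [hF, lh_C, Polynomial.C_eq_zero] at h
    apply hF0
    rw [hF, (algebraMap (K0 p) (O0 p)).injective (h.trans (map_zero _).symm), C_0]
  · have h1 := eval_lin hF
    have h2 : ∑ i, algebraMap (K0 p) (O0 p) (coeff (Finsupp.single i 1) F) * vv p i = 0 := by
      rw [h1, map_sum] at h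
      have h3 : (Polynomial.C (∑ i, algebraMap (K0 p) (O0 p) (coeff (Finsupp.single i 1) F) *
          vv p i)) * Polynomial.X = 0 := by
        rw [← h, map_sum, Finset.sum_mul]
        apply Finset.sum_congr rfl
        intro i _
        rw [RingHom.map_mul (lineHom (vv p)), lh_C, lh_X, Polynomial.C_mul]
        ring
      exact Polynomial.C_eq_zero.1 ((mul_eq_zero.1 h3).resolve_right Polynomial.X_ne_zero)
    have h4 := indep_v p _ h2
    apply hF0
    rw [h1]
    apply Finset.sum_eq_zero
    intro i _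
    rw [h4 i, C_0, zero_mul]

theorem alpha_eq : alpha (idealOf {PP0 p}) = 2 := by
  classical
  have hmem : ∀ F, F ∈ idealOf {PP0 p} ↔ F ∈ ptIdeal (PP0 p) := by
    intro F
    rw [mem_idealOf]
    simp
  apply le_antisymm
  · refine alpha_le (F := xA p ^ ((z1 p : Fin p) : ℕ) * X (i1 p (z1 p)) -
      xB p * xC p ^ ((z1 p : Fin p) : ℕ)) ((hmem _).2 (g1_mem p _)) ?_ ?_
    · intro h
      have h1 := congrArg (eval (fun i => if i = i1 p (z1 p) ∨ i = i0 p (z0 p) then (1 : K0 p)
        else 0)) h
      have e1 : i1 p (z0 p) ≠ i1 p (z1 p) := by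
        intro h2
        have := congrArg Fin.val h2
        simp [i1, z0, z1] at this
      have e2 : i1 p (z0 p) ≠ i0 p (z0 p) := by
        intro h2
        have := congrArg Fin.val h2
        simp only [i1, i0, z0] at this
        have := hp.out.pos
        omega
      rw [map_zero, map_sub, map_mul, map_mul, map_pow, map_pow, eval_X, eval_X, eval_X, eval_X,
        if_pos (Or.inr rfl), if_pos (Or.inl rfl), if_neg (by tauto)] at h1
      simp at h1
    · have h1 : ((z1 p : Fin p) : ℕ) = 1 := rfl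
      rw [h1, pow_one, pow_one]
      exact ((isHomogeneous_X _ _).mul (isHomogeneous_X _ _)).sub
        ((isHomogeneous_X _ _).mul (isHomogeneous_X _ _))
  · obtain ⟨F, hF, hF0, hFh⟩ := alpha_spec (J := idealOf {PP0 p}) (by
      refine ⟨FF p ^ 1, ?_, ?_, p, ?_⟩
      · rw [hmem, pow_one]
        have h1 := FF_mem p
        rw [mem_symb] at h1
        obtain ⟨s, hs, h2⟩ := h1
        exact (Ideal.IsPrime.mem_or_mem inferInstance
          (Ideal.pow_le_self hp.out.ne_zero h2)).resolve_left hs
      · rw [pow_one]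
        exact FF_ne p
      · rw [pow_one]
        exact FF_homog p)
    exact two_le p hF0 hFh ((hmem F).1 hF)

theorem wald_eq : IsWaldschmidt (symPow {PP0 p}) 1 := by
  have hn : 1 ≤ 2 * p - 1 := by
    have := hp.out.two_le
    omega
  obtain ⟨c, hc, hc'⟩ := exists_limit_sym hn {PP0 p}
  have h1 : c ≤ 1 := by
    refine (hc' p hp.out.one_le).trans ?_
    have hp0 : (0 : ℝ) < p := by exact_mod_cast hp.out.pos
    rw [div_le_one hp0]
    have : FF p ∈ symPow {PP0 p} p := by
      rw [mem_symPow]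
      intro q hq
      rw [Finset.mem_singleton] at hq
      subst hq
      exact FF_mem p
    exact_mod_cast alpha_le this (FF_ne p) (FF_homog p)
  have h2 : 1 ≤ c := by
    refine ge_of_tendsto hc ?_
    filter_upwards [Filter.eventually_ge_atTop 1] with r hr
    have hr0 : (0 : ℝ) < r := by exact_mod_cast hr
    rw [one_le_div hr0]
    obtain ⟨F, hF, hF0, hFh⟩ := alpha_spec (J := symPow {PP0 p} r) (by
      obtain ⟨F, hF, h⟩ := exists_form_intPow hn {PP0 p} r
      exact ⟨F, intPow_le_symPow _ r hF, h⟩)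
    have h3 := order_of_symb hFh hF0 (mem_symPow.1 hF (PP0 p) (Finset.mem_singleton_self _))
    have hF0' : map (algebraMap (K0 p) (AlgebraicClosure (K0 p))) F ≠ 0 := by
      intro h
      exact hF0 (map_injective _ (algebraMap (K0 p) (AlgebraicClosure (K0 p))).injective
        (by rw [h, map_zero]))
    rw [Pool.Agent.Chud.mem_mI_pow_iff _ hF0'] at h3
    have h4 := h3.trans (Pool.Agent.Chud.mu_le_totalDegree _ hF0')
    rw [(hFh.map _).totalDegree hF0'] at h4
    exact_mod_cast h4
  have h3 : c = 1 := le_antisymm h1 h2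
  rw [← h3]
  exact hc

end

end Pool.Agent.V5helper87.CP
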