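import Mathlib

/-!
Closed points of projective space over an arbitrary field, their homogeneous prime ideals, symbolic
powers and initial degrees.
-/

set_option autoImplicit false

universe u

namespace Pool.Agent.V5helper87.CP

open MvPolynomial

/-- Geometric points of projective space of dimension `n` over `K`: lines through the origin of
`Ω ^ (n + 1)`, where `Ω` is an algebraic closure of `K`. A closed point of projective space over
`K` is the class of a geometric point under the conjugation by the automorphisms of `Ω` over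
`K`. -/
abbrev GPt (K : Type u) [Field K] (n : ℕ) :=
  Projectivization (AlgebraicClosure K) (Fin (n + 1) → AlgebraicClosure K)

section

variable {K : Type u} [Field K] {n : ℕ}

/-- The homogeneous prime ideal of `K[x_0, …, x_n]` of the closed point given by the geometric
point `p`: the polynomials with coefficients in `K` which vanish on the line `p`. -/
noncomputable def ptIdeal (p : GPt K n) : Ideal (MvPolynomial (Fin (n + 1)) K) :=
  ⨅ x ∈ p.submodule, RingHom.ker (aeval x : MvPolynomial (Fin (n + 1)) K →ₐ[K] AlgebraicClosure K)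

theorem mem_ptIdeal {p : GPt K n} {F : MvPolynomial (Fin (n + 1)) K} :
    F ∈ ptIdeal p ↔ ∀ x ∈ p.submodule, aeval x F = 0 := by
  unfold ptIdeal
  simp only [Submodule.mem_iInf, RingHom.mem_ker]

/-- restriction to the line through `v` -/
noncomputable def lineHom (v : Fin (n + 1) → AlgebraicClosure K) :
    MvPolynomial (Fin (n + 1)) K →+* Polynomial (AlgebraicClosure K) :=
  eval₂Hom (Polynomial.C.comp (algebraMap K (AlgebraicClosure K)))
    (fun i => Polynomial.C (v i) * Polynomial.X)

theorem lineHom_eval (v : Fin (n + 1) → AlgebraicClosure K) (F : MvPolynomial (Fin (n + 1)) K)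
    (t : AlgebraicClosure K) : (lineHom v F).eval t = aeval (fun i => t * v i) F := by
  have h : (Polynomial.evalRingHom t).comp (lineHom v) =
      (aeval (fun i => t * v i) : MvPolynomial (Fin (n + 1)) K →ₐ[K] AlgebraicClosure K).toRingHom := by
    apply MvPolynomial.ringHom_ext
    · intro r
      simp [lineHom]
    · intro i
      simp only [lineHom, RingHom.comp_apply, coe_eval₂Hom, eval₂_X, Polynomial.coe_evalRingHom,
        Polynomial.eval_mul, Polynomial.eval_C, Polynomial.eval_X, AlgHom.toRingHom_eq_coe,
        RingHom.coe_coe, aeval_X]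
      ring
  exact DFunLike.congr_fun h F

theorem mem_submodule_rep (p : GPt K n) (x : Fin (n + 1) → AlgebraicClosure K) :
    x ∈ p.submodule ↔ ∃ t : AlgebraicClosure K, (fun i => t * p.rep i) = x := by
  conv_lhs => rw [← p.mk_rep]
  rw [Projectivization.submodule_mk, Submodule.mem_span_singleton]
  rfl

theorem mem_ptIdeal_iff {p : GPt K n} {F : MvPolynomial (Fin (n + 1)) K} :
    F ∈ ptIdeal p ↔ lineHom p.rep F = 0 := by
  rw [mem_ptIdeal]
  constructor
  · intro h
    apply Polynomial.funext
    intro t
    rw [lineHom_eval, Polynomial.eval_zero]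
    exact h _ ((mem_submodule_rep p _).2 ⟨t, rfl⟩)
  · intro h x hx
    obtain ⟨t, rfl⟩ := (mem_submodule_rep p x).1 hx
    rw [← lineHom_eval, h, Polynomial.eval_zero]

theorem ptIdeal_eq_ker (p : GPt K n) : ptIdeal p = RingHom.ker (lineHom p.rep) := by
  ext F
  rw [mem_ptIdeal_iff, RingHom.mem_ker]

instance ptIdeal_isPrime (p : GPt K n) : (ptIdeal p).IsPrime := by
  rw [ptIdeal_eq_ker]
  exact RingHom.ker_isPrime _

/-- The symbolic power `P^(m)` of a prime ideal `P`: the contraction of the power `P^m R_P`, that
is, the elements `f` such that `s f ∈ P^m` for some `s ∉ P`. -/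
def symb {R : Type*} [CommRing R] (P : Ideal R) [P.IsPrime] (m : ℕ) : Ideal R where
  carrier := {f | ∃ s, s ∉ P ∧ s * f ∈ P ^ m}
  zero_mem' := ⟨1, P.one_notMem, by simp⟩
  add_mem' := by
    rintro f g ⟨s, hs, hsf⟩ ⟨t, ht, htg⟩
    refine ⟨s * t, fun h => (Ideal.IsPrime.mem_or_mem ‹_› h).elim hs ht, ?_⟩
    have h1 : s * t * (f + g) = t * (s * f) + s * (t * g) := by ring
    rw [h1]
    exact add_mem (Ideal.mul_mem_left _ _ hsf) (Ideal.mul_mem_left _ _ htg)
  smul_mem' := by
    rintro c f ⟨s, hs, hsf⟩
    refine ⟨s, hs, ?_⟩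
    have h1 : s * (c • f) = c * (s * f) := by rw [smul_eq_mul]; ring
    rw [h1]
    exact Ideal.mul_mem_left _ _ hsf

theorem mem_symb {R : Type*} [CommRing R] {P : Ideal R} [P.IsPrime] {m : ℕ} {f : R} :
    f ∈ symb P m ↔ ∃ s, s ∉ P ∧ s * f ∈ P ^ m := Iff.rfl

/-- `α(J)`: the least degree of a nonzero form in the (homogeneous) ideal `J`. -/
noncomputable def alpha (J : Ideal (MvPolynomial (Fin (n + 1)) K)) : ℕ :=
  sInf {d | ∃ F ∈ J, F ≠ 0 ∧ F.IsHomogeneous d}

/-- The symbolic power `I_Z^(m)` of the ideal `I_Z` of the set of closed points given by `Z`. -/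
noncomputable def symPow (Z : Finset (GPt K n)) (m : ℕ) : Ideal (MvPolynomial (Fin (n + 1)) K) :=
  ⨅ p ∈ Z, symb (ptIdeal p) m

/-- The intersection of the `m`-th powers of the ideals of the closed points given by `Z`; for
`m = 1` the ideal `I_Z` of the set. -/
noncomputable def intPow (Z : Finset (GPt K n)) (m : ℕ) : Ideal (MvPolynomial (Fin (n + 1)) K) :=
  ⨅ p ∈ Z, ptIdeal p ^ m

/-- The ideal `I_Z` of the set of closed points given by `Z`. -/
noncomputable def idealOf (Z : Finset (GPt K n)) : Ideal (MvPolynomial (Fin (n + 1)) K) :=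
  ⨅ p ∈ Z, ptIdeal p

/-- The residue field of the closed point given by `p` is separable over `K`: the ratios of the
homogeneous coordinates of `p` are separable over `K`. -/
def SepPt (p : GPt K n) : Prop := ∀ i j, p.rep i ≠ 0 → IsSeparable K (p.rep j / p.rep i)

/-- `c` is the limit of `α(J_r) / r` -/
def IsWaldschmidt (J : ℕ → Ideal (MvPolynomial (Fin (n + 1)) K)) (c : ℝ) : Prop :=
  Filter.Tendsto (fun r : ℕ => (alpha (J r) : ℝ) / r) Filter.atTop (nhds c)

end

end Pool.Agent.V5helper87.CP
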