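import Pool.Agent.V5helper87.CP.Basic

/-!
Chudnovsky's inequality for closed points with separable residue fields, over arbitrary fields.
-/

set_option autoImplicit false

universe u

namespace Pool.Agent.V5helper87.CP

open MvPolynomial Pool.Agent.Chud Pool.Agent.H580C Pool.Agent.H737R3

section

/-- descent of forms which vanish at all conjugates of given points -/
theorem descent {K : Type u} [Field K] {E : Type u} [Field E] [Algebra K E] [FiniteDimensional K E]
    [IsGalois K E] {n : ℕ} (Z : Set (Fin (n + 1) → E)) (G : MvPolynomial (Fin (n + 1)) E)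
    (hG0 : G ≠ 0) (d : ℕ) (hG : G.IsHomogeneous d)
    (hv : ∀ γ : E ≃ₐ[K] E, ∀ w ∈ Z, eval (fun i => γ (w i)) G = 0) :
    ∃ T : MvPolynomial (Fin (n + 1)) K, T ≠ 0 ∧ T.IsHomogeneous d ∧ ∀ w ∈ Z, aeval w T = 0 := by
  classical
  obtain ⟨m₀, hm₀⟩ := MvPolynomial.ne_zero_iff.1 hG0
  obtain ⟨e', he'⟩ : ∃ e' : E, Algebra.trace K E e' ≠ 0 := by
    by_contra hcon
    push Not at hcon
    exact Algebra.trace_ne_zero K E (LinearMap.ext hcon)
  set e : E := e' / coeff m₀ G with he
  set T : MvPolynomial (Fin (n + 1)) K :=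
    ∑ m ∈ G.support, monomial m (Algebra.trace K E (e * coeff m G)) with hT
  have hcoeff : ∀ m, coeff m T = Algebra.trace K E (e * coeff m G) := by
    intro m
    rw [hT, coeff_sum]
    by_cases hm : m ∈ G.support
    · rw [Finset.sum_eq_single m]
      · rw [coeff_monomial, if_pos rfl]
      · intro b _ hb
        rw [coeff_monomial, if_neg hb]
      · intro h
        exact absurd hm h
    · rw [notMem_support_iff.1 hm, mul_zero, map_zero]
      apply Finset.sum_eq_zero
      intro b hb
      rw [coeff_monomial, if_neg]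
      rintro rfl
      exact hm hb
  refine ⟨T, ?_, ?_, ?_⟩
  · intro h
    have := hcoeff m₀
    rw [h, coeff_zero, he, div_mul_cancel₀ _ hm₀] at this
    exact he' this.symm
  · intro m hm
    apply hG
    intro h0
    apply hm
    rw [hcoeff, h0, mul_zero, map_zero]
  · intro w hw
    have h1 : aeval w T = ∑ γ : E ≃ₐ[K] E, γ (e * eval (fun i => γ.symm (w i)) G) := by
      have h2 : ∀ γ : E ≃ₐ[K] E, γ (e * eval (fun i => γ.symm (w i)) G) =
          ∑ m ∈ G.support, γ (e * coeff m G) * ∏ i, w i ^ m i := by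
        intro γ
        rw [eval_eq', Finset.mul_sum, map_sum]
        apply Finset.sum_congr rfl
        intro m _
        rw [← mul_assoc, map_mul, map_prod]
        congr 1
        apply Finset.prod_congr rfl
        intro i _
        rw [map_pow, AlgEquiv.apply_symm_apply]
      rw [Finset.sum_congr rfl fun γ _ => h2 γ, Finset.sum_comm, hT, map_sum]
      apply Finset.sum_congr rfl
      intro m _
      rw [aeval_monomial, trace_eq_sum_automorphisms, ← Finset.sum_mul,
        Finsupp.prod_fintype _ _ (by simp)]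
    rw [h1]
    apply Finset.sum_eq_zero
    intro γ _
    rw [hv γ.symm w hw, mul_zero, map_zero]

variable {K : Type u} [Field K] {n : ℕ}

theorem mem_ptIdeal_mk {v : Fin (n + 1) → AlgebraicClosure K} (hv : v ≠ 0)
    {F : MvPolynomial (Fin (n + 1)) K} :
    F ∈ ptIdeal (Projectivization.mk (AlgebraicClosure K) v hv : GPt K n) ↔ lineHom v F = 0 := by
  rw [mem_ptIdeal]
  have hx : ∀ x, x ∈ (Projectivization.mk (AlgebraicClosure K) v hv).submodule ↔
      ∃ t : AlgebraicClosure K, (fun i => t * v i) = x := by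
    intro x
    rw [Projectivization.submodule_mk, Submodule.mem_span_singleton]
    rfl
  constructor
  · intro h
    apply Polynomial.funext
    intro t
    rw [lineHom_eval, Polynomial.eval_zero]
    exact h _ ((hx _).2 ⟨t, rfl⟩)
  · intro h x hx'
    obtain ⟨t, rfl⟩ := (hx x).1 hx'
    rw [← lineHom_eval, h, Polynomial.eval_zero]

/-- orders at arbitrary representatives -/
theorem order_of_symb' {v : Fin (n + 1) → AlgebraicClosure K} (hv : v ≠ 0)
    {F : MvPolynomial (Fin (n + 1)) K} {d m : ℕ} (hF : F.IsHomogeneous d) (hF0 : F ≠ 0)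
    (h : F ∈ symb (ptIdeal (Projectivization.mk (AlgebraicClosure K) v hv : GPt K n)) m) :
    map (algebraMap K (AlgebraicClosure K)) F ∈ mI v ^ m := by
  have h1 := order_of_symb hF hF0 h
  obtain ⟨t, ht⟩ := (Projectivization.mk_eq_mk_iff' (AlgebraicClosure K) _ _
    (Projectivization.mk (AlgebraicClosure K) v hv).rep_nonzero hv).1
    (by rw [Projectivization.mk_rep])
  have ht0 : t ≠ 0 := by
    rintro rfl
    rw [zero_smul] at ht
    exact (Projectivization.mk (AlgebraicClosure K) v hv).rep_nonzero ht.symm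
  have h2 := mem_linI_pow (hF.map _) (Projectivization.mk (AlgebraicClosure K) v hv).rep_nonzero h1
  rw [← ht] at h2
  exact Ideal.pow_right_mono ((linI_smul v ht0).trans (linI_le_mI _)) m h2

/-- restriction to a line defined over an intermediate field -/
noncomputable def lineHomE {E : Type u} [Field E] [Algebra K E] (w : Fin (n + 1) → E) :
    MvPolynomial (Fin (n + 1)) K →+* Polynomial E :=
  eval₂Hom (Polynomial.C.comp (algebraMap K E)) (fun i => Polynomial.C (w i) * Polynomial.X)

theorem lineHom_comp {E : Type u} [Field E] [Algebra K E] (w : Fin (n + 1) → E)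
    (φ : E →ₐ[K] AlgebraicClosure K) (F : MvPolynomial (Fin (n + 1)) K) :
    lineHom (fun i => φ (w i)) F = 0 ↔ lineHomE w F = 0 := by
  have h : lineHom (fun i => φ (w i)) = (Polynomial.mapRingHom (φ : E →+* AlgebraicClosure K)).comp
      (lineHomE (K := K) w) := by
    apply MvPolynomial.ringHom_ext
    · intro r
      simp [lineHom, lineHomE]
    · intro i
      simp only [lineHom, lineHomE, RingHom.comp_apply, coe_eval₂Hom, eval₂_X,
        Polynomial.coe_mapRingHom, Polynomial.map_mul, Polynomial.map_C, Polynomial.map_X,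
        RingHom.coe_coe]
  rw [h, RingHom.comp_apply]
  constructor
  · intro h0
    exact Polynomial.map_injective _ (φ : E →+* AlgebraicClosure K).injective
      (by rw [Polynomial.map_zero]; exact h0)
  · intro h0
    rw [h0, map_zero]

/-- **Chudnovsky's inequality** for forms and closed points with separable residue fields -/
theorem chud_form (hn : 1 ≤ n) (Z : Finset (GPt K n)) (hZ : Z.Nonempty) (hs : ∀ p ∈ Z, SepPt p)
    {F : MvPolynomial (Fin (n + 1)) K} {d m : ℕ} (hF : F.IsHomogeneous d) (hF0 : F ≠ 0)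
    (h : F ∈ symPow Z m) : m * (alpha (idealOf Z) + n - 1) ≤ d * n := by
  classical
  set Ω := AlgebraicClosure K with hΩ
  have hex : ∀ p : GPt K n, ∃ i, p.rep i ≠ 0 := by
    intro p
    by_contra hcon
    push Not at hcon
    exact p.rep_nonzero (funext hcon)
  choose ix hix using hex
  let nv : GPt K n → Fin (n + 1) → Ω := fun p j => p.rep j / p.rep (ix p)
  -- the Galois extension
  let S : Set Ω := ⋃ p ∈ Z, Set.range (nv p)
  have hSfin : S.Finite := Set.Finite.biUnion Z.finite_toSet fun p _ => Set.finite_range _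
  have hSsep : ∀ x ∈ S, IsSeparable K x := by
    intro x hx
    simp only [S, Set.mem_iUnion, Set.mem_range] at hx
    obtain ⟨p, hp, j, rfl⟩ := hx
    exact hs p hp (ix p) j (hix p)
  have : Finite S := hSfin
  let L₀ : IntermediateField K Ω := IntermediateField.adjoin K S
  have hL₀ : FiniteDimensional K L₀ :=
    IntermediateField.finiteDimensional_adjoin fun x _ => Algebra.IsIntegral.isIntegral x
  have hL₀s : Algebra.IsSeparable K L₀ :=
    (IntermediateField.isSeparable_adjoin_iff_isSeparable K Ω).2 hSsep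
  let E : IntermediateField K Ω := IntermediateField.normalClosure K L₀ Ω
  have hEfin : FiniteDimensional K E := normalClosure.is_finiteDimensional K L₀ Ω
  have hEle : E ≤ separableClosure K Ω := by
    apply (IntermediateField.normalClosure_le_iff_of_normal).2
    exact (le_separableClosure_iff K Ω L₀).2 hL₀s
  have hEsep : Algebra.IsSeparable K E := (le_separableClosure_iff K Ω E).1 hEle
  have hEgal : IsGalois K E := ⟨⟩
  have hle : L₀ ≤ E := IntermediateField.le_normalClosure L₀
  have hmem : ∀ p ∈ Z, ∀ j, nv p j ∈ E := by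
    intro p hp j
    apply hle
    apply IntermediateField.subset_adjoin
    simp only [S, Set.mem_iUnion, Set.mem_range]
    exact ⟨p, hp, j, rfl⟩
  -- the conjugates
  let ZE : Set (Fin (n + 1) → E) := {w | ∃ p ∈ Z, ∀ i, (w i : Ω) = nv p i}
  let ZE' : Set (Fin (n + 1) → E) := {x | ∃ γ : E ≃ₐ[K] E, ∃ w ∈ ZE, x = fun i => γ (w i)}
  have hZEfin : ZE.Finite := by
    apply Set.Finite.subset (Set.Finite.biUnion Z.finite_toSet
      (t := fun p => {w : Fin (n + 1) → E | ∀ i, (w i : Ω) = nv p i}) fun p _ => ?_)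
    · rintro w ⟨p, hp, hw⟩
      simp only [Set.mem_iUnion]
      exact ⟨p, hp, hw⟩
    · apply Set.Subsingleton.finite
      intro w hw w' hw'
      funext i
      apply Subtype.ext
      rw [hw i, hw' i]
  have hZE'fin : ZE'.Finite := by
    have : ZE' = ⋃ γ : E ≃ₐ[K] E, (fun (w : Fin (n + 1) → E) i => γ (w i)) '' ZE := by
      ext x
      simp only [ZE', Set.mem_ofPred_eq, Set.mem_iUnion, Set.mem_image]
      constructor
      · rintro ⟨γ, w, hw, rfl⟩
        exact ⟨γ, w, hw, rfl⟩
      · rintro ⟨γ, w, hw, rfl⟩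
        exact ⟨γ, w, hw, rfl⟩
    rw [this]
    exact Set.finite_iUnion fun γ => hZEfin.image _
  set a := alpha (idealOf Z) with ha
  have hlowE : LowW ZE' (fun _ => 1) a := by
    intro G e hG0 hG hGv
    obtain ⟨T, hT0, hT, hTv⟩ := descent (K := K) ZE G hG0 e hG (by
      intro γ w hw
      have := hGv _ ⟨γ, w, hw, rfl⟩
      rw [pow_one] at this
      exact this)
    apply alpha_le _ hT0 hT
    rw [mem_idealOf]
    intro p hp
    rw [form_mem_ptIdeal hT]
    let w : Fin (n + 1) → E := fun i => ⟨nv p i, hmem p hp i⟩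
    have h1 : aeval (nv p) T = 0 := by
      have h2 := hTv w ⟨p, hp, fun i => rfl⟩
      have h3 : aeval (fun i => algebraMap E Ω (w i)) T = algebraMap E Ω (aeval w T) :=
        aeval_algebraMap_apply Ω w T
      change aeval (fun i => algebraMap E Ω (w i)) T = 0
      rw [h3, h2, map_zero]
    have h4 : (p.rep) = fun i => p.rep (ix p) * nv p i := by
      funext i
      simp only [nv]
      rw [mul_div_cancel₀]
      exact hix p
    rw [h4, aeval_smul_form hT, h1, mul_zero]
  have hlow : LowT ((fun (v : Fin (n + 1) → E) i => algebraMap E Ω (v i)) '' ZE') 1 a := by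
    have := lowW_map E Ω hlowE (fun _ => 1) (fun v _ => le_rfl)
    exact this
  have hvne : ∀ v ∈ (fun (v : Fin (n + 1) → E) i => algebraMap E Ω (v i)) '' ZE', v ≠ 0 := by
    rintro _ ⟨x, ⟨γ, w, ⟨p, hp, hw⟩, rfl⟩, rfl⟩ h0
    have h1 := congrFun h0 (ix p)
    simp only [Pi.zero_apply, map_eq_zero] at h1
    have h2 : (w (ix p) : Ω) = 0 := by rw [h1]; rfl
    rw [hw] at h2
    exact (div_ne_zero (hix p) (hix p)) h2
  have key := p_CD Ω n 1 a m d ((fun (v : Fin (n + 1) → E) i => algebraMap E Ω (v i)) '' ZE')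
    (map (algebraMap K Ω) F) hn le_rfl (hZE'fin.image _) ?_ hvne hlow ?_ (hF.map _) ?_
  · have h1 : 1 + n - 1 = n := by omega
    rw [h1] at key
    exact key
  · obtain ⟨p, hp⟩ := hZ
    exact ⟨_, _, ⟨AlgEquiv.refl, fun i => ⟨nv p i, hmem p hp i⟩, ⟨p, hp, fun i => rfl⟩, rfl⟩, rfl⟩
  · intro h0
    apply hF0
    exact map_injective _ (algebraMap K Ω).injective (by rw [h0, map_zero])
  · rintro v hv
    have hv0 := hvne v hv
    obtain ⟨x, ⟨γ, w, ⟨p, hp, hw⟩, rfl⟩, rfl⟩ := hv
    apply order_of_symb' hv0 hF hF0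
    -- the ideals of conjugate points agree
    have hid : ptIdeal (Projectivization.mk Ω (fun i => algebraMap E Ω (γ (w i))) hv0 : GPt K n) =
        ptIdeal p := by
      ext G
      rw [mem_ptIdeal_mk]
      have hnv0 : nv p ≠ 0 := by
        intro h0
        exact (div_ne_zero (hix p) (hix p)) (congrFun h0 (ix p))
      have hp' : p = Projectivization.mk Ω (nv p) hnv0 := by
        conv_lhs => rw [← p.mk_rep]
        rw [Projectivization.mk_eq_mk_iff']
        refine ⟨p.rep (ix p), ?_⟩
        funext i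
        simp only [nv, Pi.smul_apply, smul_eq_mul]
        rw [mul_div_cancel₀]
        exact hix p
      conv_rhs => rw [hp']
      rw [mem_ptIdeal_mk]
      have e1 := lineHom_comp (K := K) w ((IsScalarTower.toAlgHom K E Ω).comp γ.toAlgHom) G
      have e2 := lineHom_comp (K := K) w (IsScalarTower.toAlgHom K E Ω) G
      have e3 : (fun i => (IsScalarTower.toAlgHom K E Ω) (w i)) = nv p := by
        funext i
        exact hw i
      rw [e3] at e2
      rw [e2, ← e1]
      rfl
    have : ∀ (P Q : Ideal (MvPolynomial (Fin (n + 1)) K)) [P.IsPrime] [Q.IsPrime], P = Q →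
        F ∈ symb Q m → F ∈ symb P m := by
      intro P Q _ _ hPQ hFQ
      subst hPQ
      exact hFQ
    exact this _ _ hid (mem_symPow.1 h p hp)

theorem real_of_nat' {a b n m : ℕ} (hn : 1 ≤ n) (hm : 1 ≤ m)
    (h : m * (a + n - 1) ≤ b * n) : ((a : ℝ) + n - 1) / n ≤ (b : ℝ) / m := by
  have hm0 : (0 : ℝ) < m := by exact_mod_cast hm
  have hn0 : (0 : ℝ) < n := by exact_mod_cast hn
  rw [div_le_div_iff₀ hn0 hm0]
  have key : ((m * (a + n - 1) : ℕ) : ℝ) ≤ ((b * n : ℕ) : ℝ) := by exact_mod_cast h
  rw [Nat.cast_mul, Nat.cast_mul, Nat.cast_sub (by omega)] at key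
  push_cast at key
  linarith

/-- **Chudnovsky's inequality** for closed points with separable residue fields -/
theorem chud_sep (hn : 1 ≤ n) (Z : Finset (GPt K n)) (hZ : Z.Nonempty) (hs : ∀ p ∈ Z, SepPt p) :
    ∃ c c' : ℝ, IsWaldschmidt (symPow Z) c ∧ IsWaldschmidt (intPow Z) c' ∧
      ((alpha (idealOf Z) : ℝ) + n - 1) / n ≤ c ∧ c ≤ c' := by
  obtain ⟨c, hc, -⟩ := exists_limit_sym hn Z
  obtain ⟨c', hc', -⟩ := exists_limit_int hn Z
  refine ⟨c, c', hc, hc', ge_of_tendsto hc ?_, le_of_tendsto_of_tendsto hc hc' ?_⟩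
  · filter_upwards [Filter.eventually_ge_atTop 1] with r hr
    obtain ⟨F, hF, hF0, hFh⟩ := alpha_spec (J := symPow Z r) (by
      obtain ⟨F, hF, h⟩ := exists_form_intPow hn Z r
      exact ⟨F, intPow_le_symPow Z r hF, h⟩)
    exact real_of_nat' hn hr (chud_form hn Z hZ hs hFh hF0 hF)
  · filter_upwards [Filter.eventually_ge_atTop 1] with r hr
    have hr0 : (0 : ℝ) < r := by exact_mod_cast hr
    rw [div_le_div_iff_of_pos_right hr0]
    obtain ⟨F, hF, hF0, hFh⟩ := alpha_spec (exists_form_intPow hn Z r)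
    exact_mod_cast alpha_le (intPow_le_symPow Z r hF) hF0 hFh

end

end Pool.Agent.V5helper87.CP
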